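import Pool.Agent.Helper86.UQ.St5

/-! Module BOX of project UQ: the density bound in the domain `I`. -/

set_option autoImplicit false

open Finset

namespace Pool.Agent.Helper29.UQ

open Classical Pool.Agent.Helper30.RCU Pool.Agent.Helper1.UQ Pool.Agent.Helper86.UQ

universe u

/-- BOX. -/
theorem hBOX (hDEN : StDEN.{u}) (hRKD : StRKD.{u}) : StBOX.{u} := by
  intro V G hlf p p' t q hp' hpp hp ht ht1 hq I
  have key := hDEN (Option V) (Option V) (GE G) (ph G) (sg I) p p' t q
    ((te G I).map Function.Embedding.inl) (I.map Function.Embedding.inr) (pr G p' t) (pr G p 0)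
    (bd G I).card hp' hpp hp ht ht1 hq (Finset.disjoint_map_inl_map_inr _ _)
    (by
      intro e he
      obtain ⟨a, _, rfl⟩ := Finset.mem_map.1 he
      exact ⟨rfl, rfl⟩)
    (by
      intro e he
      obtain ⟨a, _, rfl⟩ := Finset.mem_map.1 he
      rfl)
    (fun ω hω => hRKD V G hlf I ω hω)
  have e1 : ∀ (inst : DecidableEq (GE G)), @Union.union _ (@Finset.instUnion _ inst)
      ((te G I).map (Function.Embedding.inl : G.edgeSet ↪ GE G))
      (I.map (Function.Embedding.inr : V ↪ GE G)) = (te G I).disjSum I := by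
    intro inst
    ext x
    rcases x with x | x
    · simp
    · simp
  have e2 : (te G I).map (Function.Embedding.inl : G.edgeSet ↪ GE G) = (te G I).disjSum ∅ :=
    (Finset.disjSum_empty (te G I)).symm
  rw [e1 _, Finset.sum_map, Finset.sum_map, Finset.card_map, e2] at key
  have s1 : ∑ e ∈ te G I, ex (cm (ph G) (sg I)) (pr G p' t) q ((te G I).disjSum I)
      (oe ((Function.Embedding.inl : G.edgeSet ↪ GE G) e)) = ∑ e ∈ te G I, hI G p' t q I e := by
    refine Finset.sum_congr rfl (fun e he => ?_)
    unfold hI eD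
    rw [Finset.insert_eq_of_mem he]
    rfl
  rw [s1] at key
  exact key

end Pool.Agent.Helper29.UQ
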